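import Pool.Agent.Lib.MP_ae9f52_co.TriFree

set_option autoImplicit false
open Classical

/-- Every finite triangle-free induced subgraph of the triangular lattice has imperfection ratio
at most 9/8. -/
theorem Pool.Agent.Results.MP_ae9f52_co.TriangleFree.result :
  ∀ G : SimpleGraph (ℤ × ℤ),
    G = SimpleGraph.fromRel
      (fun p q : ℤ × ℤ => q - p = ((1 : ℤ), (0 : ℤ)) ∨ q - p = ((0 : ℤ), (1 : ℤ)) ∨
        q - p = ((1 : ℤ), (-1 : ℤ))) →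
    ∀ S : Finset (ℤ × ℤ),
    (∀ a ∈ S, ∀ b ∈ S, ∀ c ∈ S, ¬ (G.Adj a b ∧ G.Adj b c ∧ G.Adj a c)) →
    ∀ w : ℤ × ℤ → ℝ, (∀ v, 0 ≤ w v) →
    ∀ M : ℝ, (∀ C : Finset (ℤ × ℤ), C ⊆ S → G.IsClique (↑C : Set (ℤ × ℤ)) →
        ∑ v ∈ C, w v ≤ M) →
    ∃ c : Finset (ℤ × ℤ) → ℝ, (∀ I : Finset (ℤ × ℤ), 0 ≤ c I) ∧
      (∀ v ∈ S, w v ≤ ∑ I ∈ S.powerset.filter
          (fun I : Finset (ℤ × ℤ) => G.IsIndepSet (↑I : Set (ℤ × ℤ)) ∧ v ∈ I), c I) ∧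
      ∑ I ∈ S.powerset.filter
          (fun I : Finset (ℤ × ℤ) => G.IsIndepSet (↑I : Set (ℤ × ℤ))), c I
        ≤ 9 / 8 * M := by
  rintro G rfl S hS w hw M hM
  have := Pool.Agent.Lib.MP_ae9f52_co.colouring_of (G := Pool.Agent.Lib.MP_ae9f52_co.T)
    (by norm_num) (Pool.Agent.Lib.MP_ae9f52_co.triangle_free hS) w hw M hM
  convert this <;> rfl
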